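import Mathlib

/-! Functions of `u : ℕ` which are nonnegative combinations of falling factorials
`u.descFactorial k` with `a ≤ k ≤ N`. -/

namespace Pool.Agent.Helper51.HH

open Finset

/-- combination of `u.descFactorial k`, `a ≤ k ≤ N`, with nonnegative coefficients if `s` holds. -/
def Cone (s : Prop) (a N : ℕ) (f : ℕ → ℚ) : Prop :=
  ∃ c : ℕ → ℚ, (s → ∀ k, 0 ≤ c k) ∧ ∀ u : ℕ, f u = ∑ k ∈ Icc a N, c k * (u.descFactorial k : ℚ)

lemma desc_succ (u k : ℕ) : (u.descFactorial (k + 1) : ℚ) = ((u : ℚ) - k) * u.descFactorial k := by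
  rw [Nat.descFactorial_succ]
  rcases le_or_gt k u with h | h
  · push_cast [Nat.cast_sub h]; ring
  · rw [Nat.descFactorial_eq_zero_iff_lt.mpr h]; simp

variable {s : Prop}

lemma Cone.zero (a N : ℕ) : Cone s a N (fun _ => 0) :=
  ⟨fun _ => 0, fun _ _ => le_rfl, fun u => by simp⟩

lemma Cone.congr {a N : ℕ} {f g : ℕ → ℚ} (h : Cone s a N f) (e : ∀ u, g u = f u) : Cone s a N g := by
  obtain ⟨c, hc, hf⟩ := h
  exact ⟨c, hc, fun u => by rw [e, hf]⟩

lemma Cone.add {a N : ℕ} {f g : ℕ → ℚ} (hf : Cone s a N f) (hg : Cone s a N g) :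
    Cone s a N (fun u => f u + g u) := by
  obtain ⟨c, hc, hf⟩ := hf
  obtain ⟨d, hd, hg⟩ := hg
  refine ⟨fun k => c k + d k, fun hs k => add_nonneg (hc hs k) (hd hs k), fun u => ?_⟩
  simp only [hf, hg, add_mul, Finset.sum_add_distrib]

lemma Cone.smul {a N : ℕ} {f : ℕ → ℚ} {r : ℚ} (hr : s → 0 ≤ r) (hf : Cone s a N f) :
    Cone s a N (fun u => r * f u) := by
  obtain ⟨c, hc, hf⟩ := hf
  refine ⟨fun k => r * c k, fun hs k => mul_nonneg (hr hs) (hc hs k), fun u => ?_⟩
  simp only [hf, Finset.mul_sum, mul_assoc]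

lemma Cone.sum {ι : Type*} {a N : ℕ} (T : Finset ι) {f : ι → ℕ → ℚ}
    (h : ∀ i ∈ T, Cone s a N (f i)) : Cone s a N (fun u => ∑ i ∈ T, f i u) := by
  classical
  induction T using Finset.induction_on with
  | empty => simpa using Cone.zero a N
  | insert i T hi ih =>
    have h1 := (h i (Finset.mem_insert_self i T)).add
      (ih (fun j hj => h j (Finset.mem_insert_of_mem hj)))
    exact h1.congr (fun u => by rw [Finset.sum_insert hi])

lemma Cone.mono {a N a' N' : ℕ} {f : ℕ → ℚ} (h : Cone s a N f) (ha : a' ≤ a) (hN : N ≤ N') :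
    Cone s a' N' f := by
  classical
  obtain ⟨c, hc, hf⟩ := h
  refine ⟨fun k => if k ∈ Icc a N then c k else 0, fun hs k => ?_, fun u => ?_⟩
  · dsimp only; split_ifs
    · exact hc hs k
    · exact le_rfl
  · rw [hf]
    have hsub : Icc a N ⊆ Icc a' N' := Finset.Icc_subset_Icc ha hN
    rw [← Finset.sum_subset hsub]
    · exact Finset.sum_congr rfl (fun k hk => by dsimp only; rw [if_pos hk])
    · intro k _ hk; dsimp only; rw [if_neg hk, zero_mul]

lemma Cone.single {a N m : ℕ} (ha : a ≤ m) (hN : m ≤ N) {r : ℚ} (hr : s → 0 ≤ r) :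
    Cone s a N (fun u => r * (u.descFactorial m : ℚ)) := by
  refine Cone.mono (s := s) (a := m) (N := m) ⟨fun _ => r, fun hs _ => hr hs, fun u => by simp⟩ ha hN

/-- multiplication by `2u+1-2j`, `j ≤ a` -/
lemma Cone.mulLin {a N j : ℕ} {f : ℕ → ℚ} (h : Cone s a N f) (hj : j ≤ a) :
    Cone s a (N + 1) (fun u => (2 * (u : ℚ) + 1 - 2 * j) * f u) := by
  obtain ⟨c, hc, hf⟩ := h
  have h1 : Cone s a (N + 1) (fun u => ∑ k ∈ Icc a N, (2 * (u : ℚ) + 1 - 2 * j) *
      (c k * (u.descFactorial k : ℚ))) := by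
    refine Cone.sum _ (fun k hk => ?_)
    rw [Finset.mem_Icc] at hk
    have hjk : (j : ℚ) ≤ k := by exact_mod_cast hj.trans hk.1
    have h2 := (Cone.single (a := a) (N := N + 1) (m := k + 1) (by omega) (by omega)
      (r := 2 * c k) (fun hs => by have := hc hs k; positivity)).add
      (Cone.single (a := a) (N := N + 1) (m := k) (by omega) (by omega)
      (r := (2 * (k : ℚ) + 1 - 2 * j) * c k) (fun hs => mul_nonneg (by linarith) (hc hs k)))
    refine h2.congr (fun u => ?_)
    rw [desc_succ]; ring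
  exact h1.congr (fun u => by rw [hf, Finset.mul_sum])

/-- multiplication by `u+1` -/
lemma Cone.mulSucc {a N : ℕ} {f : ℕ → ℚ} (h : Cone s a N f) :
    Cone s a (N + 1) (fun u => ((u : ℚ) + 1) * f u) := by
  obtain ⟨c, hc, hf⟩ := h
  have h1 : Cone s a (N + 1) (fun u => ∑ k ∈ Icc a N, ((u : ℚ) + 1) *
      (c k * (u.descFactorial k : ℚ))) := by
    refine Cone.sum _ (fun k hk => ?_)
    rw [Finset.mem_Icc] at hk
    have h2 := (Cone.single (a := a) (N := N + 1) (m := k + 1) (by omega) (by omega)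
      (r := c k) (fun hs => hc hs k)).add
      (Cone.single (a := a) (N := N + 1) (m := k) (by omega) (by omega)
      (r := ((k : ℚ) + 1) * c k) (fun hs => mul_nonneg (by positivity) (hc hs k)))
    refine h2.congr (fun u => ?_)
    rw [desc_succ]; ring
  exact h1.congr (fun u => by rw [hf, Finset.mul_sum])

/-- product of `2u+1-2j`, `j < m`, `m ≤ a+1` -/
lemma Cone.mulProd {a N : ℕ} {f : ℕ → ℚ} (h : Cone s a N f) (m : ℕ) (hm : m ≤ a + 1) :
    Cone s a (N + m) (fun u => (∏ j ∈ range m, (2 * (u : ℚ) + 1 - 2 * (j : ℕ))) * f u) := by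
  induction m with
  | zero => simpa using h
  | succ m ih =>
    have h1 := (ih (by omega)).mulLin (j := m) (by omega)
    refine (h1.congr (fun u => ?_)).mono le_rfl (by omega)
    rw [Finset.prod_range_succ]; ring

/-- the shift `u ↦ u - m` after multiplication by `u.descFactorial m` -/
lemma Cone.shift {N : ℕ} {f : ℕ → ℚ} (h : Cone s 0 N f) (m : ℕ) :
    Cone s m (N + m) (fun u => (u.descFactorial m : ℚ) * f (u - m)) := by
  obtain ⟨c, hc, hf⟩ := h
  have h1 : Cone s m (N + m) (fun u => ∑ k ∈ Icc 0 N, (u.descFactorial m : ℚ) *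
      (c k * ((u - m).descFactorial k : ℚ))) := by
    refine Cone.sum _ (fun k hk => ?_)
    rw [Finset.mem_Icc] at hk
    refine (Cone.single (a := m) (N := N + m) (m := m + k) (by omega) (by omega)
      (r := c k) (fun hs => hc hs k)).congr (fun u => ?_)
    have e : (u - m).descFactorial (m + k - m) * u.descFactorial m = u.descFactorial (m + k) :=
      Nat.descFactorial_mul_descFactorial (Nat.le_add_right m k)
    rw [Nat.add_sub_cancel_left] at e
    rw [← e]; push_cast; ring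
  exact h1.congr (fun u => by rw [hf, Finset.mul_sum])

/-- summation `∑_{u<g}` -/
lemma sum_desc (k g : ℕ) :
    ∑ u ∈ range g, (u.descFactorial k : ℚ) = (g.descFactorial (k + 1) : ℚ) / (k + 1) := by
  induction g with
  | zero => simp
  | succ g ih =>
    rw [Finset.sum_range_succ, ih]
    have h1 : ((g + 1).descFactorial (k + 1) : ℚ) = ((g : ℚ) + 1) * g.descFactorial k := by
      rw [Nat.succ_descFactorial_succ]; push_cast; ring
    have h2 : (k : ℚ) + 1 ≠ 0 := by positivity
    rw [h1, desc_succ]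
    field_simp
    ring

lemma Cone.sumRange {N : ℕ} {f : ℕ → ℚ} (h : Cone s 0 N f) :
    Cone s 1 (N + 1) (fun g => ∑ u ∈ range g, f u) := by
  obtain ⟨c, hc, hf⟩ := h
  have h1 : Cone s 1 (N + 1) (fun g => ∑ k ∈ Icc 0 N, c k * ∑ u ∈ range g,
      (u.descFactorial k : ℚ)) := by
    refine Cone.sum _ (fun k hk => ?_)
    rw [Finset.mem_Icc] at hk
    refine (Cone.single (a := 1) (N := N + 1) (m := k + 1) (by omega) (by omega)
      (r := c k / (k + 1)) (fun hs => div_nonneg (hc hs k) (by positivity))).congr (fun u => ?_)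
    rw [sum_desc]; ring
  refine h1.congr (fun g => ?_)
  simp only [hf]
  rw [Finset.sum_comm]
  exact Finset.sum_congr rfl (fun k _ => by rw [Finset.mul_sum])

/-- `C(2u+1, 2h-1)` with `h = m+1`. -/
lemma desc_odd (u m : ℕ) : ((2 * u + 1).descFactorial (2 * m + 1) : ℚ) =
    2 ^ m * (u.descFactorial m : ℚ) * ∏ j ∈ range (m + 1), (2 * (u : ℚ) + 1 - 2 * (j : ℕ)) := by
  induction m with
  | zero => simp
  | succ m ih =>
    have e : 2 * (m + 1) + 1 = (2 * m + 1) + 1 + 1 := by ring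
    rw [e, desc_succ, desc_succ, ih, Finset.prod_range_succ _ (m + 1), desc_succ]
    push_cast
    ring

/-- `C(2u+2, 2h-1)` with `h = m+1`. -/
lemma desc_even (u m : ℕ) : ((2 * u + 2).descFactorial (2 * m + 1) : ℚ) =
    2 ^ (m + 1) * ((u : ℚ) + 1) * (u.descFactorial m : ℚ) *
      ∏ j ∈ range m, (2 * (u : ℚ) + 1 - 2 * (j : ℕ)) := by
  induction m with
  | zero => simp; ring
  | succ m ih =>
    have e : 2 * (m + 1) + 1 = (2 * m + 1) + 1 + 1 := by ring
    rw [e, desc_succ, desc_succ, ih, Finset.prod_range_succ _ m, desc_succ]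
    push_cast
    ring

lemma choose_cast (n k : ℕ) : (n.choose k : ℚ) = (n.descFactorial k : ℚ) / (k.factorial : ℚ) := by
  rw [Nat.descFactorial_eq_factorial_mul_choose]
  have : (k.factorial : ℚ) ≠ 0 := by exact_mod_cast k.factorial_ne_zero
  push_cast
  field_simp

/-- odd kernel: `C(2u+1,2m+1) f(u-m)` -/
lemma Cone.kerOdd {N : ℕ} {f : ℕ → ℚ} (h : Cone s 0 N f) (m : ℕ) :
    Cone s m (N + m + (m + 1)) (fun u => ((2 * u + 1).choose (2 * m + 1) : ℚ) * f (u - m)) := by
  have h1 := ((h.shift m).mulProd (m + 1) le_rfl).smul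
    (r := 2 ^ m / ((2 * m + 1).factorial : ℚ)) (fun _ => by positivity)
  refine h1.congr (fun u => ?_)
  rw [choose_cast, desc_odd]; ring

/-- even kernel: `C(2u+2,2m+1) f(u-m)` -/
lemma Cone.kerEven {N : ℕ} {f : ℕ → ℚ} (h : Cone s 0 N f) (m : ℕ) :
    Cone s m (N + m + (m + 1)) (fun u => ((2 * u + 2).choose (2 * m + 1) : ℚ) * f (u - m)) := by
  have h1 := (((h.shift m).mulProd m (by omega)).mulSucc).smul
    (r := 2 ^ (m + 1) / ((2 * m + 1).factorial : ℚ)) (fun _ => by positivity)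
  refine (h1.congr (fun u => ?_)).mono le_rfl (by omega)
  rw [choose_cast, desc_even]; ring

end Pool.Agent.Helper51.HH
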